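import Pool.Agent.helper17.EXT.Spec

/-!
# ft:SYT (project EXT, MP_561ff4_al): Sylow subgroups of `F₄(q)`, `²E₆(q)` fix the highest root vector
-/

set_option autoImplicit false

open Finset

namespace Pool.Agent.EXT

open Pool.Agent.EXC

section
variable {L : Type}

/-- the action on a stable family of subsets -/
def SYT_act (G : Subgroup (Equiv.Perm L)) (X : Set (Set L))
    (h : ∀ f ∈ G, ∀ S ∈ X, (f : L → L) '' S ∈ X) (Q : Subgroup G) : MulAction Q X where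
  smul f S := ⟨(((f : G) : Equiv.Perm L) : L → L) '' S.1, h _ (f : G).2 _ S.2⟩
  one_smul S := Subtype.ext (Set.image_id S.1)
  mul_smul f g S := Subtype.ext (by
    show (fun x => _) '' S.1 = _
    exact Set.image_comp (((f : G) : Equiv.Perm L) : L → L) (((g : G) : Equiv.Perm L) : L → L) S.1)

theorem SYT_core [Finite L] {p : ℕ} [Fact p.Prime] (G : Subgroup (Equiv.Perm L)) (X : Set (Set L))
    (h : ∀ f ∈ G, ∀ S ∈ X, (f : L → L) '' S ∈ X) (U P : Subgroup G)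
    (hU : IsPGroup p U) (hP : IsPGroup p P) (hUP : U ≤ P) (S0 : Set L) (hS0 : S0 ∈ X)
    (hfix : ∀ u ∈ U, ((u : Equiv.Perm L) : L → L) '' S0 = S0)
    (huniq : ∀ S ∈ X, (∀ u ∈ U, ((u : Equiv.Perm L) : L → L) '' S = S) → S = S0) :
    ∀ g ∈ P, ((g : Equiv.Perm L) : L → L) '' S0 = S0 := by
  haveI : Finite X := inferInstance
  letI a1 := SYT_act G X h U
  letI a2 := SYT_act G X h P
  have hone : Nat.card (MulAction.fixedPoints U X) = 1 := by
    rw [Nat.card_eq_one_iff_unique]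
    constructor
    · constructor
      rintro ⟨W, hW⟩ ⟨W', hW'⟩
      have h1 := huniq W.1 W.2 fun u hu => congrArg Subtype.val (hW ⟨u, hu⟩)
      have h2 := huniq W'.1 W'.2 fun u hu => congrArg Subtype.val (hW' ⟨u, hu⟩)
      exact Subtype.ext (Subtype.ext (h1.trans h2.symm))
    · exact ⟨⟨⟨S0, hS0⟩, fun u => Subtype.ext (hfix u u.2)⟩⟩
  have hmod1 := hU.card_modEq_card_fixedPoints X
  have hmod2 := hP.card_modEq_card_fixedPoints X
  rw [hone] at hmod1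
  have hmod3 := hmod2.symm.trans hmod1
  have hne : Nat.card (MulAction.fixedPoints P X) ≠ 0 := by
    intro h0
    rw [h0] at hmod3
    have h1 := (Nat.modEq_iff_dvd' (Nat.zero_le 1)).1 hmod3
    have h2 : 1 < p := (Fact.out : p.Prime).one_lt
    exact absurd (Nat.le_of_dvd (by norm_num) h1) (by omega)
  obtain ⟨⟨W, hW⟩⟩ : Nonempty (MulAction.fixedPoints P X) := by
    by_contra hemp
    rw [not_nonempty_iff] at hemp
    exact hne Nat.card_of_isEmpty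
  have h1 := huniq W.1 W.2 fun u hu => congrArg Subtype.val (hW ⟨u, hUP hu⟩)
  intro g hg
  have h2 : ((g : Equiv.Perm L) : L → L) '' W.1 = W.1 := congrArg Subtype.val (hW ⟨g, hg⟩)
  rw [h1] at h2
  exact h2

end

/-- the nonzero fixed multiples of `a` -/
def SYT_pt {K : Type} [Field K] (τ : K ≃+* K) (a : Lm C6 K) : Set (LT τ) :=
  {v | ∃ c : K, τ c = c ∧ c ≠ 0 ∧ (v : Lm C6 K) = c • a}

/-- the permutations induced by `GS ∩ UG` -/
def SYT_U {K : Type} [Field K] (τ : K ≃+* K) : Subgroup (GF τ) where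
  carrier := {f | ∃ u ∈ GS τ, u ∈ UG C6 K ∧ ∀ v : LT τ, ((f : Equiv.Perm (LT τ)) v : Lm C6 K) = u v}
  one_mem' := ⟨1, one_mem _, one_mem _, fun _ => rfl⟩
  mul_mem' := by
    rintro f f' ⟨g, hg, hg2, h⟩ ⟨g', hg', hg2', h'⟩
    refine ⟨g * g', mul_mem hg hg', mul_mem hg2 hg2', fun v => ?_⟩
    have e : ((f * f' : GF τ) : Equiv.Perm (LT τ)) v = (f : Equiv.Perm (LT τ)) ((f' : Equiv.Perm (LT τ)) v) := rfl
    rw [e, h, h']
    rfl
  inv_mem' := by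
    rintro f ⟨g, hg, hg2, h⟩
    refine ⟨g⁻¹, inv_mem hg, inv_mem hg2, fun v => ?_⟩
    have e := h (((f⁻¹ : GF τ) : Equiv.Perm (LT τ)) v)
    have e2 : (f : Equiv.Perm (LT τ)) (((f⁻¹ : GF τ) : Equiv.Perm (LT τ)) v) = v :=
      (f : Equiv.Perm (LT τ)).apply_symm_apply v
    rw [e2] at e
    rw [e]
    exact (LinearEquiv.symm_apply_apply g _).symm

theorem SYT_pow {K : Type} [Field K] (τ : K ≃+* K) (f : GF τ) (g : Lm C6 K ≃ₗ[K] Lm C6 K)
    (h : ∀ v : LT τ, ((f : Equiv.Perm (LT τ)) v : Lm C6 K) = g v) (n : ℕ) (v : LT τ) :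
    (((f ^ n : GF τ) : Equiv.Perm (LT τ)) v : Lm C6 K) = (g ^ n) v := by
  induction n generalizing v with
  | zero => rfl
  | succ n ih =>
    have e : ((f ^ (n + 1) : GF τ) : Equiv.Perm (LT τ)) v =
        ((f ^ n : GF τ) : Equiv.Perm (LT τ)) ((f : Equiv.Perm (LT τ)) v) := by
      rw [pow_succ]
      rfl
    rw [e, ih, h, pow_succ]
    rfl

theorem SYT (hRTF : RTF_stmt) (hSGR : SGR_stmt) (hESF : ESF_stmt) (hGFX : GFX_stmt) (hFPT : FPT_stmt) :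
    SYT_stmt := by
  intro K _ _ τ hτ p hp hch P hP hUP f hf v hv
  haveI : Fact p.Prime := ⟨hp⟩
  haveI := hch
  obtain ⟨hE1, hE2⟩ := hESF K τ hτ
  have hth : LR th := hRTF.2.2.2.2.2.2.2.2.2.2.2.2.2.1
  have hEth : ExS τ (E C6 th : Lm C6 K) := hE1 th hth
  obtain ⟨f1, -⟩ := f_FPU 6 C6 K 1 th ![0, 2, 3, 4, 5] f_DE6.2
  -- images of points
  have himg : ∀ (g : Equiv.Perm (LT τ)) (k : Lm C6 K ≃ₗ[K] Lm C6 K), (∀ w : LT τ, (g w : Lm C6 K) = k w) →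
      ∀ a, si τ a = a → (g : LT τ → LT τ) '' SYT_pt τ a = SYT_pt τ (k a) := by
    intro g k hk a ha
    ext w
    constructor
    · rintro ⟨w', ⟨c, hc1, hc2, hc3⟩, rfl⟩
      refine ⟨c, hc1, hc2, ?_⟩
      rw [hk, hc3, map_smul]
    · rintro ⟨c, hc1, hc2, hc3⟩
      refine ⟨g⁻¹ w, ⟨c, hc1, hc2, ?_⟩, g.apply_symm_apply w⟩
      have h1 := hk (g⁻¹ w)
      have h2 : g (g⁻¹ w) = w := g.apply_symm_apply w
      rw [h2, hc3, ← map_smul] at h1
      exact (k.injective h1).symm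
  set X : Set (Set (LT τ)) := {S | ∃ a, ExS τ a ∧ S = SYT_pt τ a} with hX
  have hst : ∀ g ∈ GF τ, ∀ S ∈ X, (g : LT τ → LT τ) '' S ∈ X := by
    rintro g ⟨k, hk1, hk2⟩ S ⟨a, ha, rfl⟩
    obtain ⟨-, -, h3, h4, -⟩ := hE2 a ha
    exact ⟨k a, h4 k hk1, himg g k hk2 a h3⟩
  have hUp : IsPGroup p (SYT_U τ) := by
    rintro ⟨g, u, hu1, hu2, hu3⟩
    obtain ⟨k, hk⟩ := f_UPG 6 C6 K p hp hch u hu2
    refine ⟨k, Subtype.ext (Subtype.ext (Equiv.ext fun w => Subtype.ext ?_))⟩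
    have h1 := SYT_pow τ g u hu3 (p ^ k) w
    rw [hk] at h1
    exact h1
  have hUP' : SYT_U τ ≤ P := fun g hg => hUP g hg
  have hfix : ∀ u ∈ SYT_U τ, (((u : GF τ) : Equiv.Perm (LT τ)) : LT τ → LT τ) '' SYT_pt τ (E C6 th) =
      SYT_pt τ (E C6 th) := by
    rintro g ⟨u, hu1, hu2, hu3⟩
    rw [himg g u hu3 _ (hE2 _ hEth).2.2.1, f1 u hu2]
  have huniq : ∀ S ∈ X, (∀ u ∈ SYT_U τ, (((u : GF τ) : Equiv.Perm (LT τ)) : LT τ → LT τ) '' S = S) →
      S = SYT_pt τ (E C6 th) := by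
    rintro S ⟨a, ha, rfl⟩ hS
    obtain ⟨-, ha0, ha1, -⟩ := hE2 a ha
    have h1 : ∀ u ∈ GS τ, u ∈ UG C6 K → ∃ κ : K, u a = κ • a := by
      intro u hu1 hu2
      obtain ⟨g, hg, hgu⟩ := (hGFX K τ hτ).1 u hu1
      have h2 := hS ⟨g, hg⟩ ⟨u, hu1, hu2, hgu⟩
      have h3 : (⟨a, ha1⟩ : LT τ) ∈ SYT_pt τ a := ⟨1, map_one τ, one_ne_zero, (one_smul K a).symm⟩
      have h4 : g ⟨a, ha1⟩ ∈ SYT_pt τ a := by
        rw [← h2]
        exact ⟨_, h3, rfl⟩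
      obtain ⟨c, -, -, hc⟩ := h4
      rw [hgu] at hc
      exact ⟨c, hc⟩
    obtain ⟨c, hc1, hc2⟩ := hFPT K τ hτ a ha h1
    have hc0 : c ≠ 0 := by
      rintro rfl
      exact ha0 (by rw [hc2, zero_smul])
    ext w
    constructor
    · rintro ⟨d, hd1, hd2, hd3⟩
      refine ⟨d * c, by rw [map_mul, hd1, hc1], mul_ne_zero hd2 hc0, ?_⟩
      rw [hd3, hc2, smul_smul]
    · rintro ⟨d, hd1, hd2, hd3⟩
      refine ⟨d * c⁻¹, by rw [map_mul, map_inv₀, hd1, hc1], mul_ne_zero hd2 (inv_ne_zero hc0), ?_⟩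
      rw [hd3, hc2, smul_smul, mul_assoc, inv_mul_cancel₀ hc0, mul_one]
  have hmain := SYT_core (p := p) (GF τ) X hst (SYT_U τ) P hUp hP hUP' (SYT_pt τ (E C6 th)) ⟨_, hEth, rfl⟩
    hfix huniq f hf
  -- the scalar is one
  have hv0 : v ∈ SYT_pt τ (E C6 th) := ⟨1, map_one τ, one_ne_zero, by rw [hv, one_smul]⟩
  have hfv : (f : Equiv.Perm (LT τ)) v ∈ SYT_pt τ (E C6 th) := by
    rw [← hmain]
    exact ⟨v, hv0, rfl⟩
  obtain ⟨κ, -, -, hκ⟩ := hfv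
  obtain ⟨g, hg1, hg2⟩ := f.2
  have hge : g (E C6 th) = κ • (E C6 th : Lm C6 K) := by
    rw [← hκ, hg2 v, hv]
  have hpow : ∀ m : ℕ, (g ^ m) (E C6 th) = κ ^ m • (E C6 th : Lm C6 K) := by
    intro m
    induction m with
    | zero => simp
    | succ m ih =>
      rw [pow_succ, LinearEquiv.mul_apply, hge, map_smul, ih, smul_smul, pow_succ, mul_comm]
  obtain ⟨k, hk⟩ := hP ⟨f, hf⟩
  have hk2 : f ^ (p ^ k) = 1 := by
    have h1 := congrArg (fun x : P => (x : GF τ)) hk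
    simpa using h1
  have h3 := SYT_pow τ f g hg2 (p ^ k) v
  rw [hk2, hv, hpow] at h3
  have h3' : (E C6 th : Lm C6 K) = κ ^ (p ^ k) • (E C6 th : Lm C6 K) := by
    rw [← h3]
    exact hv.symm
  have h4 : (κ ^ (p ^ k) - 1) • (E C6 th : Lm C6 K) = 0 := by
    rw [sub_smul, ← h3', one_smul, sub_self]
  rcases smul_eq_zero.1 h4 with h5 | h5
  · have h6 : (κ - 1) ^ (p ^ k) = 0 := by
      rw [sub_pow_char_pow, one_pow]
      exact h5
    have h7 : κ - 1 = 0 := pow_eq_zero_iff (pow_ne_zero k hp.ne_zero) |>.1 h6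
    have h8 : κ = 1 := sub_eq_zero.1 h7
    refine Subtype.ext ?_
    rw [hκ, h8, one_smul, hv]
  · exact absurd h5 (hE2 _ hEth).2.1

end Pool.Agent.EXT
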