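import Pool.Agent.helper17.EXT.SpecJ

/-!
# Row `ftj:JQF` (MP_561ff4): the quadratic form `fm v (f v)` in characteristic 2
-/

set_option autoImplicit false

open Finset

namespace Pool.Agent.EXT

open Pool.Agent.EXC

section
variable {K : Type} [Field K]

lemma JQF_HH (h2 : (2 : K) = 0) (h : Fin 6 → K) : fm C6 ((h, 0) : Lm C6 K) (h, 0) = 0 := by
  rw [fm_H_H]
  simp only [Fin.sum_univ_six, C6, CartanMatrix.E₆]
  simp
  linear_combination (-(h 0 ^ 2 + h 1 ^ 2 + h 2 ^ 2 + h 3 ^ 2 + h 4 ^ 2 + h 5 ^ 2 - h 0 * h 2 - h 2 * h 3 - h 1 * h 3 - h 3 * h 4 - h 4 * h 5)) * h2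

lemma JQF_vv (h2 : (2 : K) = 0) (v : Lm C6 K) : fm C6 v v = 0 := by
  obtain ⟨-, -, hs, -, he⟩ := f_INV 6 C6 K
  refine Lm_ind C6 (P := fun v => fm C6 v v = 0) ?_ ?_ ?_ ?_ v
  · intro x y hx hy
    show fm C6 (x + y) (x + y) = 0
    rw [fm_add_left, fm_add_right, fm_add_right, hx, hy, hs y x]
    linear_combination (fm C6 x y) * h2
  · intro c x hx
    show fm C6 (c • x) (c • x) = 0
    rw [fm_smul_left, fm_smul_right, hx, mul_zero, mul_zero]
  · intro α hα
    exact (he α hα).2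
  · exact JQF_HH h2

lemma JQF_q {α : Fin 6 → ℤ} (hα : ip C6 α α = 2) (v : Lm C6 K) : fm C6 v (br C6 (E C6 α) v) = 0 := by
  obtain ⟨hi, -, hs, -, he⟩ := f_INV 6 C6 K
  refine Lm_ind C6 (P := fun v => fm C6 v (br C6 (E C6 α) v) = 0) ?_ ?_ ?_ ?_ v
  · intro x y hx hy
    show fm C6 (x + y) (br C6 (E C6 α) (x + y)) = 0
    rw [br_add_right, fm_add_left, fm_add_right, fm_add_right, hx, hy, hs y (br C6 (E C6 α) x), hi α hα]
    ring
  · intro c x hx
    show fm C6 (c • x) (br C6 (E C6 α) (c • x)) = 0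
    rw [br_smul_right, fm_smul_left, fm_smul_right, hx, mul_zero, mul_zero]
  · intro β hβ
    show fm C6 (E C6 β) (br C6 (E C6 α) (E C6 β)) = 0
    rw [fm_E C6 hβ, br_E_E C6 hα hβ, cf_sub, cf_smul]
    have e1 : cf (if β = -α then ht C6 α else 0 : Lm C6 K) (-β) = 0 := by split_ifs <;> simp
    have e2 : cf (E C6 (α + β) : Lm C6 K) (-β) = 0 := by
      by_cases hr : ip C6 (α + β) (α + β) = 2
      · rw [cf_E C6 hr, if_neg]
        intro h
        have h3 : α = -((2 : ℤ) • β) := by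
          have : α = -β - β := by rw [h]; abel
          rw [this, two_smul]; abel
        rw [h3, ip_neg_left, ip_neg_right, ip_smul_left, ip_smul_right, hβ] at hα
        omega
      · rw [E_eq_zero C6 hr, cf_zero]
    rw [e1, e2]
    ring
  · intro h
    show fm C6 ((h, 0) : Lm C6 K) (br C6 (E C6 α) (h, 0)) = 0
    rw [br_E_H C6 hα, fm_smul_right, fm_H_E, mul_zero]

lemma JQF_xe (h2 : (2 : K) = 0) {a : Lm C6 K} (ha : Ex C6 a) (t : K) (v : Lm C6 K) :
    fm C6 v (xe C6 a t v) = t ^ 2 * fm C6 a v ^ 2 := by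
  obtain ⟨-, -, hs, -, -⟩ := f_INV 6 C6 K
  have hb : fm C6 v (br C6 a v) = 0 := by
    obtain ⟨g, hg, α, hα, c, hc, rfl⟩ := ha
    have hau := (f_EXF 6 C6 K (f_NBR 6 C6 1 th ![0, 2, 3, 4, 5] f_DE6.2).1).1 g hg
    have e : v = g (g⁻¹ v) := (LinearEquiv.apply_symm_apply g v).symm
    rw [br_smul_left, fm_smul_right]
    have : fm C6 v (br C6 (g (E C6 α)) v) = 0 := by
      calc fm C6 v (br C6 (g (E C6 α)) v) = fm C6 (g (g⁻¹ v)) (br C6 (g (E C6 α)) (g (g⁻¹ v))) := by rw [← e]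
        _ = fm C6 (g⁻¹ v) (br C6 (E C6 α) (g⁻¹ v)) := by rw [← hau.br, hau.fm]
        _ = 0 := JQF_q hα _
    rw [this, mul_zero]
  unfold xe
  rw [fm_add_right, fm_add_right, JQF_vv h2, fm_smul_right, fm_smul_right, hb, hs v a]
  ring

lemma JQF_xe_sub (a : Lm C6 K) (t : K) (x y : Lm C6 K) : xe C6 a t (x - y) = xe C6 a t x - xe C6 a t y := by
  unfold xe
  rw [br_sub_right, fm_sub_right]
  module

lemma JQF_xe_add (a : Lm C6 K) (t : K) (x y : Lm C6 K) : xe C6 a t (x + y) = xe C6 a t x + xe C6 a t y := by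
  unfold xe
  rw [br_add_right, fm_add_right]
  module

lemma JQF_xe_smul (a : Lm C6 K) (t c : K) (x : Lm C6 K) : xe C6 a t (c • x) = c • xe C6 a t x := by
  unfold xe
  rw [br_smul_right, fm_smul_right]
  module

lemma JQF_cf {δ w : Fin 6 → ℤ} (h : δ ≠ w) : cf (E C6 δ : Lm C6 K) w = 0 := by
  by_cases hr : ip C6 δ δ = 2
  · rw [cf_E C6 hr, if_neg (fun e => h e.symm)]
  · rw [E_eq_zero C6 hr, cf_zero]

/-- coefficient of `X_th(t) E δ` at `w` -/
lemma JQF_cfX {δ w : Fin 6 → ℤ} (t : K) (h1 : δ ≠ w) (h2 : th + δ ≠ w) (h3 : th ≠ w) :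
    cf (xe C6 (E C6 th) t (E C6 δ) : Lm C6 K) w = 0 := by
  have hth : ip C6 th th = 2 := f_DE6.2.th2
  obtain ⟨a1, a2, a3, -, -⟩ := f_ACT 6 C6 K th t hth
  by_cases hr : ip C6 δ δ = 2
  · have hb := (ip_abs_le hth hr).1
    by_cases h0 : 0 ≤ ip C6 th δ
    · rw [a1 δ hr h0]; exact JQF_cf h1
    · by_cases hm : ip C6 th δ = -1
      · rw [a2 δ hr hm, cf_add, cf_smul, JQF_cf h1, JQF_cf h2]; ring
      · have hm2 : ip C6 th δ = -2 := by omega
        have e := eq_neg_of_ip_eq_neg_two hth hr hm2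
        subst e
        rw [a3, cf_add, cf_sub, cf_smul, cf_smul, cf_ht, JQF_cf h1, JQF_cf h3]; ring
  · rw [E_eq_zero C6 hr]
    have : xe C6 (E C6 th) t (0 : Lm C6 K) = 0 := by
      unfold xe
      simp
    rw [this, cf_zero]

/-- `X_γ(t)` on the Cartan part -/
lemma JQF_H (hRTF : RTF_stmt) {γ : Fin 6 → ℤ} (hγ : SR γ) {t : K} {g : Lm C6 K ≃ₗ[K] Lm C6 K} (hg : IsS (RingEquiv.refl K) γ t g) (h : Fin 6 → K) :
    ∃ c1 c2 : K, g (h, 0) = ((h, 0) - c1 • E C6 γ - c2 • E C6 (pv γ) : Lm C6 K) := by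
  have hpv : ip C6 (pv γ) (pv γ) = 2 := by rw [hRTF.1]; exact hγ.1
  have h0 : ip C6 γ (pv γ) = 0 := hRTF.2.2.2.2.2.2.2.2.2.2.2.2.1 γ hγ
  obtain ⟨-, -, -, b4, -⟩ := f_ACT 6 C6 K (pv γ) ((sn γ : K) * (RingEquiv.refl K) t) hpv
  obtain ⟨a1, -, -, a4, -⟩ := f_ACT 6 C6 K γ t hγ.1
  refine ⟨t * ev C6 γ h, (sn γ : K) * (RingEquiv.refl K) t * ev C6 (pv γ) h, ?_⟩
  rw [hg, b4, JQF_xe_sub, JQF_xe_smul, a4, a1 (pv γ) hpv (by rw [h0])]

lemma JQF_ipneg {v w : Fin 6 → ℤ} (hw : ip C6 w w = 2) (h : ip C6 v w ≠ -2) : v ≠ -w := by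
  rintro rfl
  rw [ip_neg_left, hw] at h
  exact h rfl

end

theorem JQF (hLST : LST_stmt) (hRTF : RTF_stmt) (hSGR : SGR_stmt) (hESF : ESF_stmt) (hACS : ACS_stmt) (hJCM : JCM_stmt) (hJQA : JQA_stmt) : JQF_stmt := by
  intro K _ h2
  have hτ : ∀ x : K, (RingEquiv.refl K) ((RingEquiv.refl K) x) = x := fun x => rfl
  obtain ⟨s1, s2, s3, s4, -, s6⟩ := hSGR K (RingEquiv.refl K) hτ
  have h2t : ∀ t : K, t + t = 0 := fun t => by linear_combination t * h2
  have hxe0 : ∀ (a v : Lm C6 K), xe C6 a 0 v = v := fun a v => by unfold xe; simp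
  -- the square of `X_γ(t)`
  have sqS : ∀ γ (t : K) (g : Lm C6 K ≃ₗ[K] Lm C6 K), SR γ → IsS (RingEquiv.refl K) γ t g → ∀ v, g (g v) = v := by
    intro γ t g hγ hg v
    have h := s3 γ t t g g hγ hg hg
    rw [h2t] at h
    have h' := h v
    rw [hxe0] at h'
    have e : xe C6 (E C6 (pv γ)) ((sn γ : K) * (RingEquiv.refl K) 0) v = v := by
      rw [map_zero, mul_zero, hxe0]
    rw [e] at h'
    exact h'
  -- the images of a long root vector
  have hform : ∀ γ (t : K) (g : Lm C6 K ≃ₗ[K] Lm C6 K), SR γ → IsS (RingEquiv.refl K) γ t g → ∀ β, LR β →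
      ip C6 (pv γ) β = ip C6 γ β ∧ -1 ≤ ip C6 γ β ∧ ((0 ≤ ip C6 γ β ∧ g (E C6 β) = (E C6 β : Lm C6 K)) ∨
        (ip C6 γ β = -1 ∧ ∃ c1 c2 c3 : K, g (E C6 β) = (E C6 β + c1 • E C6 (γ + β) + c2 • E C6 (pv γ + β) + c3 • E C6 (γ + pv γ + β) : Lm C6 K))) := by
    intro γ t g hγ hg β hβ
    obtain ⟨p1, p2, -, p4⟩ := hACS K (RingEquiv.refl K) hτ γ β hγ hβ
    obtain ⟨q1, q2⟩ := p4 t g hg
    refine ⟨p1, p2, ?_⟩
    by_cases h0 : 0 ≤ ip C6 γ β
    · exact Or.inl ⟨h0, q1 h0⟩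
    · have hm : ip C6 γ β = -1 := by omega
      exact Or.inr ⟨hm, _, _, _, (q2 hm).2⟩
  refine ⟨?_, ?_, ?_⟩
  · intro a t f ha hf v
    rw [hf v]
    exact JQF_xe h2 ((hESF K (RingEquiv.refl K) hτ).2 a ha).1 t v
  · intro k hk γ hγ f hf v
    obtain ⟨t, g, hg, hfv⟩ := hf
    have hgG : g ∈ GS (RingEquiv.refl K) := (s4 γ t g hγ hg).2
    have hmain : ∀ w ∈ LT (RingEquiv.refl K), fm C6 w (g w) = 0 := by
      have := hJQA K h2 g hgG (fun w _ => sqS γ t g hγ hg w) 0 ?_ ?_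
      · intro w hw
        rw [this w hw]
        ring
      · intro β hβ
        rw [fm_E C6 hβ.1]
        obtain ⟨p1, p2, h | ⟨hm, c1, c2, c3, e⟩⟩ := hform γ t g hγ hg β hβ
        · rw [h.2, JQF_cf (JQF_ipneg hβ.1 (by rw [hβ.1]; norm_num))]
          ring
        · rw [e, cf_add, cf_add, cf_add, cf_smul, cf_smul, cf_smul, JQF_cf (JQF_ipneg hβ.1 (by rw [hβ.1]; norm_num)),
            JQF_cf (JQF_ipneg hβ.1 (by rw [ip_add_left, hβ.1, hm]; norm_num)),
            JQF_cf (JQF_ipneg hβ.1 (by rw [ip_add_left, hβ.1, p1, hm]; norm_num)),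
            JQF_cf (JQF_ipneg hβ.1 (by rw [ip_add_left, ip_add_left, hβ.1, p1, hm]; norm_num))]
          ring
      · intro h _
        obtain ⟨c1, c2, e⟩ := JQF_H hRTF hγ hg h
        rw [e, fm_sub_right, fm_sub_right, fm_smul_right, fm_smul_right, fm_H_E, fm_H_E, JQF_HH h2]
        ring
    obtain ⟨-, kau, ksi⟩ := s6 k hk
    obtain ⟨-, -, ksi'⟩ := s6 k⁻¹ (inv_mem hk)
    have e : (v : Lm C6 K) = k (k⁻¹ (v : Lm C6 K)) := (LinearEquiv.apply_symm_apply k _).symm
    rw [hfv v]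
    have hw : k⁻¹ (v : Lm C6 K) ∈ LT (RingEquiv.refl K) := by
      show si (RingEquiv.refl K) (k⁻¹ (v : Lm C6 K)) = k⁻¹ (v : Lm C6 K)
      rw [ksi' (v : Lm C6 K)]
      have : si (RingEquiv.refl K) (v : Lm C6 K) = (v : Lm C6 K) := v.2
      rw [this]
    calc fm C6 (v : Lm C6 K) (k (g (k⁻¹ (v : Lm C6 K)))) = fm C6 (k (k⁻¹ (v : Lm C6 K))) (k (g (k⁻¹ (v : Lm C6 K)))) := by rw [← e]
      _ = fm C6 (k⁻¹ (v : Lm C6 K)) (g (k⁻¹ (v : Lm C6 K))) := kau.fm _ _
      _ = 0 := hmain _ hw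
  · intro t f1 f2 hf1 hf2 v
    obtain ⟨y, g, hg, hfv⟩ := hf2
    have hth : LR th := hRTF.2.2.2.2.2.2.2.2.2.2.2.2.2.1
    have hthip : ∀ w, ip C6 th w = w 1 := hRTF.2.2.2.2.2.2.2.2.2.2.2.2.2.2
    have heta : SR eta := ⟨by decide +kernel, by decide +kernel⟩
    have hgG : g ∈ GS (RingEquiv.refl K) := (s4 eta y g heta hg).2
    obtain ⟨X, hXG, hX⟩ := s2 th t hth rfl
    have hcomm : g * X = X * g := (hJCM K h2).2 eta th heta hth (by decide +kernel) y t g X hg hX
    have hXX : ∀ w, X (X w) = w := by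
      intro w
      rw [hX, hX, (f_XAU 6 C6 K (E C6 th) ((f_EXF 6 C6 K (f_NBR 6 C6 1 th ![0, 2, 3, 4, 5] f_DE6.2).1).2.2.1 (E C6 th)
        (((hESF K (RingEquiv.refl K) hτ).2 _ ((hESF K (RingEquiv.refl K) hτ).1 th hth)).1)).1).1, h2t, hxe0]
    have hXadd : ∀ x z : Lm C6 K, X (x + z) = X x + X z := fun x z => map_add X x z
    have hmain : ∀ w ∈ LT (RingEquiv.refl K), fm C6 w ((X * g) w) = t ^ 2 * fm C6 (E C6 th) w ^ 2 := by
      refine hJQA K h2 (X * g) (mul_mem hXG hgG) ?_ t ?_ ?_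
      · intro w _
        have : (X * g) ((X * g) w) = X ((g * X) (g w)) := rfl
        rw [this, hcomm]
        show X (X (g (g w))) = w
        rw [hXX, sqS eta y g heta hg]
      · intro β hβ
        rw [fm_E C6 hβ.1, fm_E_E C6 hth.1 hβ.1]
        show cf (X (g (E C6 β))) (-β) = _
        have n1 : ip C6 eta eta = 2 := heta.1
        have n2 : ip C6 (pv eta) (pv eta) = 2 := by decide +kernel
        have n3 : ip C6 eta (pv eta) = 0 := by decide +kernel
        have n4 : ip C6 eta th = 1 := by decide +kernel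
        have n5 : ip C6 (pv eta) th = 1 := by decide +kernel
        have nth : ip C6 th th = 2 := hth.1
        have nb := hβ.1
        have hbth := ip_comm C6 β th
        obtain ⟨p1, p2, hcase⟩ := hform eta y g heta hg β hβ
        -- `s ≠ -2 β` for short sums
        have key : ∀ s : Fin 6 → ℤ, ip C6 s s ≠ 8 → s + β ≠ -β := by
          intro s hs e
          apply hs
          have : s = -((2 : ℤ) • β) := by
            have : s = -β - β := by rw [← e]; abel
            rw [this, two_smul]; abel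
          rw [this, ip_neg_left, ip_neg_right, ip_smul_left, ip_smul_right, nb]
          norm_num
        by_cases hne : β = -th
        · subst hne
          rw [neg_neg, if_pos rfl]
          have hm : ip C6 eta (-th) = -1 := by rw [ip_neg_right, n4]
          rcases hcase with ⟨h0, -⟩ | ⟨-, c1, c2, c3, e⟩
          · omega
          · obtain ⟨a1, a2, a3, -, -⟩ := f_ACT 6 C6 K th t nth
            have r1 : ip C6 (eta + -th) (eta + -th) = 2 := by decide +kernel
            have r2 : ip C6 (pv eta + -th) (pv eta + -th) = 2 := by decide +kernel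
            have r3 : ip C6 (eta + pv eta + -th) (eta + pv eta + -th) = 2 := by decide +kernel
            rw [e, hXadd, hXadd, hXadd, map_smul, map_smul, map_smul, hX, hX, hX, hX, a3,
              a2 _ r1 (by decide +kernel), a2 _ r2 (by decide +kernel), a1 _ r3 (by decide +kernel)]
            simp only [cf_add, cf_sub, cf_smul, cf_ht]
            rw [JQF_cf (δ := -th) (w := th) (by decide +kernel), JQF_cf (δ := eta + -th) (w := th) (by decide +kernel),
              JQF_cf (δ := th + (eta + -th)) (w := th) (by decide +kernel), JQF_cf (δ := pv eta + -th) (w := th) (by decide +kernel),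
              JQF_cf (δ := th + (pv eta + -th)) (w := th) (by decide +kernel),
              JQF_cf (δ := eta + pv eta + -th) (w := th) (by decide +kernel), cf_E C6 nth, if_pos rfl]
            ring
        · rw [if_neg hne]
          have h3 : th ≠ -β := fun e => hne (by rw [e, neg_neg])
          have gen : ∀ s : Fin 6 → ℤ, ip C6 s s ≠ 8 → ip C6 (th + s) (th + s) ≠ 8 → cf (X (E C6 (s + β)) : Lm C6 K) (-β) = 0 := by
            intro s hs1 hs2
            rw [hX]
            refine JQF_cfX t (key s hs1) ?_ h3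
            rw [← add_assoc]
            exact key _ hs2
          have g0 : cf (X (E C6 β) : Lm C6 K) (-β) = 0 := by
            have := gen 0 (by rw [ip_zero_left]; norm_num) (by rw [add_zero, nth]; norm_num)
            rwa [zero_add] at this
          rcases hcase with ⟨-, e⟩ | ⟨-, c1, c2, c3, e⟩
          · rw [e, g0]; ring
          · rw [e, hXadd, hXadd, hXadd, map_smul, map_smul, map_smul, cf_add, cf_add, cf_add, cf_smul, cf_smul, cf_smul, g0,
              gen eta (by decide +kernel) (by decide +kernel), gen (pv eta) (by decide +kernel) (by decide +kernel),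
              gen (eta + pv eta) (by decide +kernel) (by decide +kernel)]
            ring
      · intro h _
        obtain ⟨c1, c2, e⟩ := JQF_H hRTF heta hg h
        obtain ⟨a1, -, -, a4, -⟩ := f_ACT 6 C6 K th t hth.1
        show fm C6 ((h, 0) : Lm C6 K) (X (g (h, 0))) = 0
        rw [e, hX, JQF_xe_sub, JQF_xe_sub, JQF_xe_smul, JQF_xe_smul, a4, a1 eta heta.1 (by decide +kernel),
          a1 (pv eta) (by decide +kernel) (by decide +kernel), fm_sub_right, fm_sub_right, fm_sub_right, fm_smul_right,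
          fm_smul_right, fm_smul_right, fm_H_E, fm_H_E, fm_H_E, JQF_HH h2]
        ring
    have e1 : ((f1 * f2) v : Lm C6 K) = (X * g) (v : Lm C6 K) := by
      show ((f1 (f2 v) : LT (RingEquiv.refl K)) : Lm C6 K) = X (g (v : Lm C6 K))
      rw [hf1, hX, hfv]
      rfl
    rw [e1]
    exact hmain _ v.2

end Pool.Agent.EXT
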