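import Pool.Agent.helper32.EXT.Spec7

/-!
# ft7:Z7G (project EXT, MP_561ff4_al, block H): the types `-1` and `0`, general form
-/

set_option autoImplicit false

open Finset

namespace Pool.Agent.EXT

open Pool.Agent.EXC

theorem Z7G_mul {K : Type} [Field K] {τ : K ≃+* K} {f f' : GF τ} {g g' : Lm C6 K ≃ₗ[K] Lm C6 K}
    (h : ∀ v : LT τ, ((f : Equiv.Perm (LT τ)) v : Lm C6 K) = g v)
    (h' : ∀ v : LT τ, ((f' : Equiv.Perm (LT τ)) v : Lm C6 K) = g' v) :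
    ∀ v : LT τ, (((f * f' : GF τ) : Equiv.Perm (LT τ)) v : Lm C6 K) = (g * g') v := by
  intro v
  have e : ((f * f' : GF τ) : Equiv.Perm (LT τ)) v = (f : Equiv.Perm (LT τ)) ((f' : Equiv.Perm (LT τ)) v) := rfl
  rw [e, h, h']
  rfl

theorem Z7G_inv {K : Type} [Field K] {τ : K ≃+* K} {f : GF τ} {g : Lm C6 K ≃ₗ[K] Lm C6 K}
    (h : ∀ v : LT τ, ((f : Equiv.Perm (LT τ)) v : Lm C6 K) = g v) :
    ∀ v : LT τ, (((f⁻¹ : GF τ) : Equiv.Perm (LT τ)) v : Lm C6 K) = g⁻¹ v := by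
  intro v
  have e := h (((f⁻¹ : GF τ) : Equiv.Perm (LT τ)) v)
  have e2 : (f : Equiv.Perm (LT τ)) (((f⁻¹ : GF τ) : Equiv.Perm (LT τ)) v) = v :=
    (f : Equiv.Perm (LT τ)).apply_symm_apply v
  rw [e2] at e
  rw [e]
  exact (LinearEquiv.symm_apply_apply g _).symm

theorem Z7G (hPAR : PAR_stmt) (hGFX : GFX_stmt) (hESF : ESF_stmt) (hTFS : TFS_stmt) (hWA7 : WA7_stmt)
    (hOR7 : OR7_stmt) (hHCJ : HCJ_stmt) : Z7G_stmt := by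
  intro K _ τ hτ d k₀ χ r hs hk₀ hχ1 hχ2 hr haz1 haz2 a b y hT hY
  obtain ⟨hEa, hEb, -⟩ := hTFS K τ hτ a b _ hT
  obtain ⟨g₁, h₁, hg₁, hh₁, rfl⟩ := hY
  have hLth : LR th := by
    have h1 := lt7_LR 11
    rw [lt7_th.1] at h1
    exact h1
  obtain ⟨g, hg, κ, hκ1, hκ2, hga, hgb⟩ := hPAR K τ hτ a b _ hT th (lt7 d) hLth (lt7_LR d) rfl
  obtain ⟨f, hf, hfg⟩ := (hGFX K τ hτ).1 g hg
  obtain ⟨-, -, -, -, hca⟩ := (hGFX K τ hτ).2 a hEa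
  obtain ⟨-, -, -, -, hcb⟩ := (hGFX K τ hτ).2 b hEb
  have e1 := hca f hf g hg hfg 1 _ hg₁
  have e2 := hcb f hf g hg hfg 1 _ hh₁
  rw [hga] at e1
  rw [hgb] at e2
  have hk2 : (k₀ : K) * (k₀ : K) = 1 := by
    rcases hk₀ with h | h <;> simp [h]
  have hc1 : τ ((k₀ : K) * κ) = (k₀ : K) * κ := by rw [map_mul, map_intCast, hκ1]
  have hk0 : (k₀ : K) ≠ 0 := by
    intro h
    rw [h, zero_mul] at hk2
    exact zero_ne_one hk2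
  have hc0 : (k₀ : K) * κ ≠ 0 := mul_ne_zero hk0 hκ2
  have hkc : (k₀ : K) * ((k₀ : K) * κ) = κ := by rw [← mul_assoc, hk2, one_mul]
  set c : K := (k₀ : K) * κ with hc
  have hx : ∀ v : Lm C6 K, xe C6 (κ • (E C6 (lt7 d) : Lm C6 K)) 1 v = xe C6 (E C6 (lt7 d)) κ v := by
    obtain ⟨-, h2, h3, -⟩ := f_EXF 6 C6 K hb6
    have hXtr : Xtr C6 (E C6 (lt7 d) : Lm C6 K) := (h3 _ (h2 _ (lt7_LR d).1)).1
    intro v
    have h4 := ((f_XAU 6 C6 K _ hXtr).2.2.2 κ).2 1 v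
    rw [mul_one] at h4
    exact h4
  have hy' : ∀ v : LT τ, (((⟨f, hf⟩ * (g₁ * h₁) * (⟨f, hf⟩ : GF τ)⁻¹ : GF τ) : Equiv.Perm (LT τ)) v : Lm C6 K) =
      gw7 χ c [(11, 1), (d, k₀)] v := by
    intro v
    have e3 : ((⟨f, hf⟩ * (g₁ * h₁) * (⟨f, hf⟩ : GF τ)⁻¹ : GF τ) : Equiv.Perm (LT τ)) v =
        (f * (g₁ : Equiv.Perm (LT τ)) * f⁻¹) ((f * (h₁ : Equiv.Perm (LT τ)) * f⁻¹) v) := by
      have e4 : ((⟨f, hf⟩ * (g₁ * h₁) * (⟨f, hf⟩ : GF τ)⁻¹ : GF τ) : Equiv.Perm (LT τ)) =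
          (f * (g₁ : Equiv.Perm (LT τ)) * f⁻¹) * (f * (h₁ : Equiv.Perm (LT τ)) * f⁻¹) := by
        show f * ((g₁ : Equiv.Perm (LT τ)) * (h₁ : Equiv.Perm (LT τ))) * f⁻¹ = _
        group
      rw [e4]
      rfl
    rw [e3, e1, e2, hx]
    unfold gw7
    simp only [List.map_cons, List.map_nil, List.prod_cons, List.prod_nil, mul_one]
    rw [LinearEquiv.mul_apply, (g_XG K (lt7 d) (lt7_LR d).1 _).1, (g_XG K (lt7 11) (lt7_LR 11).1 _).1,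
      lt7_th.1, hχ1, hχ2, zpow_zero, zpow_one, hkc, Int.cast_one, mul_one]
  have hFe : ∀ h : List (Fin 24 × ℤ), ∃ F : GF τ, ∀ v : LT τ, ((F : Equiv.Perm (LT τ)) v : Lm C6 K) = gw7 χ c h v := by
    intro h
    obtain ⟨F, hF, hF2⟩ := (hGFX K τ hτ).1 (gw7 χ c h) (hWA7 K τ hτ χ c hc1 hc0 h h).1
    exact ⟨⟨F, hF⟩, hF2⟩
  choose F hF using hFe
  set y' : GF τ := ⟨f, hf⟩ * (g₁ * h₁) * (⟨f, hf⟩ : GF τ)⁻¹ with hyd
  have hZ : ∀ l : List (List (Fin 24 × ℤ)), ∀ v : LT τ,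
      ((((l.map fun h => F h * y' * (F h)⁻¹).prod : GF τ) : Equiv.Perm (LT τ)) v : Lm C6 K) =
        gw7 χ c (cw7 [(11, 1), (d, k₀)] l) v := by
    intro l
    induction l with
    | nil =>
      intro v
      rfl
    | cons h t ih =>
      have h1 : cw7 [(11, 1), (d, k₀)] (h :: t) = (h ++ [(11, 1), (d, k₀)] ++ wi7 h) ++ cw7 [(11, 1), (d, k₀)] t := rfl
      have h2 : gw7 χ c (cw7 [(11, 1), (d, k₀)] (h :: t)) =
          (gw7 χ c h * gw7 χ c [(11, 1), (d, k₀)] * (gw7 χ c h)⁻¹) * gw7 χ c (cw7 [(11, 1), (d, k₀)] t) := by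
        rw [h1, (hWA7 K τ hτ χ c hc1 hc0 _ _).2.2.1, (hWA7 K τ hτ χ c hc1 hc0 _ _).2.2.1,
          (hWA7 K τ hτ χ c hc1 hc0 _ _).2.2.1, (hWA7 K τ hτ χ c hc1 hc0 h h).2.1]
      rw [h2, List.map_cons, List.prod_cons]
      exact Z7G_mul (Z7G_mul (Z7G_mul (hF h) hy') (Z7G_inv (hF h))) ih
  refine hHCJ (GF τ) r hs.length (g₁ * h₁) ⟨f, hf⟩ ?_
  refine ⟨fun i => F (hs.get i), (hs.map fun h => F h * y' * (F h)⁻¹).prod, ?_, ?_⟩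
  · refine Subgroup.list_prod_mem _ fun x hx => ?_
    obtain ⟨h, hh, rfl⟩ := List.mem_map.1 hx
    obtain ⟨i, rfl⟩ := List.get_of_mem hh
    exact Subgroup.subset_closure ⟨i, rfl⟩
  · intro N hN
    refine hOR7 K τ hτ χ c hc1 hc0 r _ hr haz1 haz2 _ (hZ hs) N ?_
    exact congrArg Subtype.val hN

end Pool.Agent.EXT
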